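import Pool.Agent.TH131.MW.Main

/-!
# Bijectivity of the powers of the monodromy operator: conclusion
-/

set_option autoImplicit false

namespace Pool.Agent.TH131.MW

open Module

/-- The induced map of subquotients is bijective if it is injective and the dimensions agree. -/
lemma isBijection_of {K M : Type} [Field K] [AddCommGroup M] [Module K M] [FiniteDimensional K M]
    {S Z S' Z' : Submodule K M} (hZ : Z ≤ Z') (hS : S ≤ S') (h : Z ⊓ S' ≤ S)
    (hdim : SameDimension S Z S' Z') : IsBijection S Z S' Z' := by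
  refine ⟨hZ, hS, ?_⟩
  have hinj : Function.Injective
      (Submodule.mapQ (S.submoduleOf Z) (S'.submoduleOf Z') (Submodule.inclusion hZ)
      (fun _ hy => hS hy)) := by
    rw [← LinearMap.ker_eq_bot, LinearMap.ker_eq_bot']
    intro y hy
    obtain ⟨⟨y, hy1⟩, rfl⟩ := Submodule.Quotient.mk_surjective _ y
    have h1 : y ∈ S' := by
      have h2 := (Submodule.Quotient.mk_eq_zero _).1 hy
      exact h2
    rw [Submodule.Quotient.mk_eq_zero]
    exact h ⟨hy1, h1⟩
  exact ⟨hinj, (LinearMap.injective_iff_surjective_of_finrank_eq_finrank hdim).1 hinj⟩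

namespace Cohomology

variable {B : Components} {K : Type} [Field K] [CharZero K] (H : Cohomology B K)

lemma ker_le : LinearMap.ker H.dC ≤ LinearMap.ker H.dF := by
  intro y hy
  rw [LinearMap.mem_ker, dC_eq, Prod.mk_eq_zero] at hy
  exact hy.2

lemma range_le : LinearMap.range H.dA ≤ LinearMap.range H.dE := by
  rintro _ ⟨z, rfl⟩
  refine ⟨(0, z), ?_⟩
  rw [dE_eq, map_zero]
  simp

/-- `N^(w-2)` is bijective. -/
theorem monodromy2 {D : Divisors B} {I : Intersections D} (hI : HodgeIndex I)
    (Z : CycleClasses I H)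
    (F : Frobenius H) (hT : F.TateDivisors Z) (hE : F.EigenvalueCondition)
    (hdim : H.SameDimension2) : H.Monodromy2 := by
  refine isBijection_of H.ker_le H.range_le ?_ hdim
  rintro _ ⟨hy1, x, rfl⟩
  have h0 : H.gys (H.res x.1) = 0 := by
    rw [SetLike.mem_coe, LinearMap.mem_ker, dC_eq, Prod.mk_eq_zero] at hy1
    have h1 := hy1.1
    rw [dE_eq, dA_eq, Prod.fst_add, map_add, H.gys_gysC, add_zero] at h1
    exact h1
  have h1 : ∀ x', H.form2 (H.res x.1) (H.res x') = 0 := by
    intro x'
    rw [H.form2_symm, H.form2_res, h0, map_zero]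
  obtain ⟨z, hz1, hz2⟩ := F.key Z hI hT hE x.1 h1
  refine ⟨z + x.2, ?_⟩
  rw [map_add, dE_eq, H.dA_eq z, hz1, hz2]

end Cohomology

/-- extension of rational vectors -/
def vecCast (K : Type) [Field K] [CharZero K] (n : ℕ) : (Fin n → ℚ) →+ (Fin n → K) where
  toFun z := fun i => (z i : K)
  map_zero' := by ext i; simp
  map_add' x y := by ext i; simp

lemma span_vecCast {K : Type} [Field K] [CharZero K] (n : ℕ) (x : Fin n → K) :
    x ∈ Submodule.span K (Set.range (vecCast K n)) := by
  classical
  have h1 : x = ∑ i, x i • vecCast K n (Pi.single i 1) := by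
    ext j
    rw [Finset.sum_apply, Finset.sum_eq_single j]
    · simp [vecCast]
    · intro i _ hij
      simp [vecCast, Pi.single_apply, hij.symm]
    · simp
  rw [h1]
  exact Submodule.sum_mem _ fun i _ => Submodule.smul_mem _ _ (Submodule.subset_span ⟨_, rfl⟩)

namespace Components

variable (B : Components) (K : Type) [Field K] [CharZero K]

lemma d3K_vecCast (z : Fin B.n3 → ℚ) :
    B.d3K K (vecCast K B.n3 z) = vecCast K B.n4 (B.d3.mulVec z) := by
  ext i
  change (B.d3.map ((↑) : ℚ → K)).mulVec _ i = ((B.d3.mulVec z i : ℚ) : K)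
  simp [Matrix.mulVec, dotProduct, vecCast]

lemma d3T_vecCast (z : Fin B.n4 → ℚ) :
    B.d3T K (vecCast K B.n4 z) =
      vecCast K B.n3 (B.d3.transpose.mulVec (fun i => B.degP i * z i)) := by
  ext i
  change (B.d3.map ((↑) : ℚ → K)).transpose.mulVec _ i =
    ((B.d3.transpose.mulVec (fun i => B.degP i * z i) i : ℚ) : K)
  simp [Matrix.mulVec, dotProduct, vecCast]

/-- positivity over `ℚ` -/
lemma d3_self (z : Fin B.n3 → ℚ)
    (h : B.d3.transpose.mulVec (fun i => B.degP i * B.d3.mulVec z i) = 0) :
    B.d3.mulVec z = 0 := by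
  apply diagForm_self B.degP_pos
  rw [diagForm_apply]
  have h1 : B.d3.mulVec z ⬝ᵥ (fun i => B.degP i * B.d3.mulVec z i) = 0 := by
    rw [dotProduct_comm, Matrix.dotProduct_mulVec, ← Matrix.mulVec_transpose, h, zero_dotProduct]
  rw [← h1, dotProduct]
  exact Finset.sum_congr rfl fun i _ => by ring

lemma d3K_self (z : Fin B.n3 → K) (h : B.d3T K (B.d3K K z) = 0) : B.d3K K z = 0 := by
  classical
  let b := Module.Free.chooseBasis ℚ K
  obtain ⟨y, rfl⟩ := exists_combo b (vecCast K B.n3) z (span_vecCast B.n3 z)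
  have h1 : ∀ k, B.d3.transpose.mulVec (fun i => B.degP i * B.d3.mulVec (y k) i) = 0 := by
    intro k
    ext i
    let φ : (Fin B.n3 → ℚ) →+ ℚ :=
      { toFun := fun z => B.d3.transpose.mulVec (fun i => B.degP i * B.d3.mulVec z i) i
        map_zero' := by simp [Matrix.mulVec, dotProduct]
        map_add' := fun a b => by
          simp only [Pi.add_apply, mul_add, Matrix.mulVec, dotProduct,
            Finset.sum_add_distrib] }
    have h2 : (y.sum fun k n => b k * (φ n : K)) = 0 := by
      have h3 := congrArg (fun f => f i) h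
      simp only [Finsupp.sum, map_sum, map_smul, d3K_vecCast, d3T_vecCast, Finset.sum_apply,
        Pi.smul_apply, smul_eq_mul, Pi.zero_apply] at h3
      exact h3
    have h3 : Finsupp.linearCombination ℚ b (y.mapRange φ (map_zero φ)) = 0 := by
      rw [Finsupp.linearCombination_apply, Finsupp.sum_mapRange_index (by simp), ← h2]
      refine Finsupp.sum_congr fun k _ => ?_
      rw [Rat.smul_def, mul_comm]
    have h4 : y.mapRange φ (map_zero φ) = 0 := b.linearIndependent (h3.trans (map_zero _).symm)
    exact congrArg (fun f => f k) h4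
  rw [Finsupp.sum, map_sum]
  refine Finset.sum_eq_zero fun k _ => ?_
  rw [map_smul, d3K_vecCast, d3_self _ _ (h1 k), map_zero, smul_zero]

lemma range_d3K_le : LinearMap.range (B.d3K K) ≤ LinearMap.ker (B.d4K K) := by
  rintro _ ⟨z, rfl⟩
  have h1 : (B.d4.map ((↑) : ℚ → K)) * (B.d3.map ((↑) : ℚ → K)) = 0 := by
    have h2 := (Matrix.map_mul (L := B.d4) (M := B.d3) (f := Rat.castHom K)).symm
    rw [B.d4_d3] at h2
    refine h2.trans ?_
    ext i j
    simp
  change (B.d4.map ((↑) : ℚ → K)).mulVec ((B.d3.map ((↑) : ℚ → K)).mulVec z) = 0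
  rw [Matrix.mulVec_mulVec, h1, Matrix.zero_mulVec]

end Components

namespace Cohomology

variable {B : Components} {K : Type} [Field K] [CharZero K] (H : Cohomology B K)

/-- `N^w` is bijective. -/
theorem monodromy0 (hdim : H.SameDimension0) : H.Monodromy0 := by
  refine isBijection_of inf_le_right bot_le ?_ hdim
  rintro _ ⟨⟨hy1, _⟩, z, rfl⟩
  rw [Submodule.mem_bot]
  apply B.d3K_self
  rw [← H.deg_gysP, show H.gysP (B.d3K K z) = 0 from hy1, map_zero]

end Cohomology

/-- `N^(w-1)` is bijective. -/
theorem CohomologyOne.monodromy1 {K : Type} [Field K] (C : CohomologyOne K)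
    (hdim : C.SameDimension1) : C.Monodromy1 := by
  refine isBijection_of inf_le_right bot_le ?_ hdim
  rintro _ ⟨⟨hy1, _⟩, x, rfl⟩
  rw [Submodule.mem_bot]
  apply C.polarized
  intro x'
  have h1 : C.form (C.res x') (C.res x) = 0 := by
    rw [C.form_res, show C.gys (C.res x) = 0 from hy1, map_zero]
  have h2 : C.form (C.res x + C.res x') (C.res x + C.res x') = 0 := C.form_alt _
  simp only [map_add, LinearMap.add_apply, C.form_alt, h1, add_zero, zero_add] at h2
  exact h2

end Pool.Agent.TH131.MW
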