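import Mathlib

/-!
# The part of the weight spectral sequence that involves `H^0`, `H^1`, `H^2` of the strata

`X` is a projective strictly semistable scheme of relative dimension `n` over a henselian
discrete valuation ring whose residue field `k` is finite with `q` elements, `w` is a degree with
`3 ≤ w ≤ n`, and `e = n - w`.  `Y^(m)` denotes the disjoint union of the `m`-fold intersections of
irreducible components of the special fibre (base changed to an algebraic closure of `k`), so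
`dim Y^(m) = n + 1 - m`.  The strata which matter for the graded pieces of `H^w` of weight at most
`2` or at least `2 w - 2` are

`Y^(w-2)` (dimension `e + 3`), `Y^(w-1)` (dimension `e + 2`), `Y^(w)` (dimension `e + 1`),
`Y^(w+1)` (dimension `e`) and `Y^(w+2)` (dimension `e - 1`, empty if `e = 0`),

and `n1`, `n2`, `n3`, `n4`, `n5` denote their numbers of connected components.  `L` is the class
of a relatively ample line bundle on `X`, and its restrictions.

We assume (this can be achieved by enlarging `k`) that the connected components of the strata and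
the classes of divisors on them are defined over `k`.

Sign conventions: a restriction map is the alternating sum of restriction maps of the Čech
complex, and every Gysin map is the exact transpose of such a restriction map for Poincaré
duality.  With these conventions the differential of the first page of the weight spectral
sequence (Rapoport–Zink) is the sum of the restriction maps and the Gysin maps.
-/

set_option autoImplicit false

namespace Pool.Agent.TH131.MW

open Module Matrix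

/-! ### Subquotients -/

/-- `S ≤ Z` and `S' ≤ Z'` are subspaces of `M`; the identity of `M` maps `Z` to `Z'` and `S` to
`S'`, and the map of the subquotients `Z / S → Z' / S'` which it induces is bijective. -/
def IsBijection {K M : Type} [Field K] [AddCommGroup M] [Module K M] (S Z S' Z' : Submodule K M) :
    Prop :=
  ∃ (hZ : Z ≤ Z') (hS : S ≤ S'), Function.Bijective
    (Submodule.mapQ (S.submoduleOf Z) (S'.submoduleOf Z') (Submodule.inclusion hZ)
      (fun _ hy => hS hy))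

/-- The subquotients `Z / S` and `Z' / S'` have the same dimension. -/
def SameDimension {K M : Type} [Field K] [AddCommGroup M] [Module K M]
    (S Z S' Z' : Submodule K M) : Prop :=
  finrank K (Z ⧸ S.submoduleOf Z) = finrank K (Z' ⧸ S'.submoduleOf Z')

/-! ### Components of the strata -/

/-- The connected components of the strata and their degrees. -/
structure Components where
  (n1 n2 n3 n4 n5 : ℕ)
  /-- restriction `H^0(Y^(w-2)) → H^0(Y^(w-1))` -/
  d1 : Matrix (Fin n2) (Fin n1) ℚ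
  /-- restriction `H^0(Y^(w-1)) → H^0(Y^(w))` -/
  d2 : Matrix (Fin n3) (Fin n2) ℚ
  /-- restriction `H^0(Y^(w)) → H^0(Y^(w+1))` -/
  d3 : Matrix (Fin n4) (Fin n3) ℚ
  /-- restriction `H^0(Y^(w+1)) → H^0(Y^(w+2))` -/
  d4 : Matrix (Fin n5) (Fin n4) ℚ
  d3_d2 : d3 * d2 = 0
  d4_d3 : d4 * d3 = 0
  /-- the degrees `∫ L^(e+2)` of the components of `Y^(w-1)` -/
  degS : Fin n2 → ℚ
  degS_pos : ∀ i, 0 < degS i
  /-- the degrees `∫ L^(e+1)` of the components of `Y^(w)` -/
  degC : Fin n3 → ℚ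
  degC_pos : ∀ i, 0 < degC i
  /-- the degrees `∫ L^e` of the components of `Y^(w+1)` -/
  degP : Fin n4 → ℚ
  degP_pos : ∀ i, 0 < degP i

namespace Components

variable (B : Components) (K : Type) [Field K] [CharZero K]

/-- restriction `H^0(Y^(w)) → H^0(Y^(w+1))` over `K` -/
def d3K : (Fin B.n3 → K) →ₗ[K] (Fin B.n4 → K) := (B.d3.map ((↑) : ℚ → K)).mulVecLin

/-- restriction `H^0(Y^(w+1)) → H^0(Y^(w+2))` over `K` -/
def d4K : (Fin B.n4 → K) →ₗ[K] (Fin B.n5 → K) := (B.d4.map ((↑) : ℚ → K)).mulVecLin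

/-- `u ↦ d3ᵀ (degP · u)` over `K`: the Gysin map `H^0(Y^(w+1)) → H^2(Y^(w))`, followed by
`∫ (·) L^e` on the components of `Y^(w)` -/
def d3T : (Fin B.n4 → K) →ₗ[K] (Fin B.n3 → K) :=
  (B.d3.map ((↑) : ℚ → K)).transpose.mulVecLin.comp
    (LinearMap.pi fun i => (B.degP i : K) • LinearMap.proj i)

/-- `z ↦ d3ᵀ (degP · d3 z)` over `ℚ` -/
def laplacian (z : Fin B.n3 → ℚ) : Fin B.n3 → ℚ :=
  B.d3.transpose.mulVec (fun i => B.degP i * B.d3.mulVec z i)

end Components

/-! ### Divisor classes -/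

/-- Divisor classes on the strata: `N1` and `N2` are the groups of divisor classes with rational
coefficients, modulo numerical equivalence, on `Y^(w-2)` and on `Y^(w-1)`. -/
structure Divisors (B : Components) where
  (N1 N2 : Type)
  [addN1 : AddCommGroup N1]
  [modN1 : Module ℚ N1]
  [addN2 : AddCommGroup N2]
  [modN2 : Module ℚ N2]
  /-- restriction of divisor classes from `Y^(w-2)` to `Y^(w-1)` -/
  res : N1 →ₗ[ℚ] N2
  /-- restriction of divisor classes from `Y^(w-1)` to `Y^(w)`, followed by `∫ (·) L^e` on the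
  components of `Y^(w)` -/
  deg : N2 →ₗ[ℚ] (Fin B.n3 → ℚ)
  /-- Gysin map `H^0(Y^(w-1)) → H^2(Y^(w-2))` -/
  gysS : (Fin B.n2 → ℚ) →ₗ[ℚ] N1
  /-- Gysin map `H^0(Y^(w)) → H^2(Y^(w-1))` -/
  gysC : (Fin B.n3 → ℚ) →ₗ[ℚ] N2
  /-- `t ↦ t L` on `Y^(w-2)` -/
  pol1 : (Fin B.n1 → ℚ) →ₗ[ℚ] N1
  /-- `h ↦ h L` on `Y^(w-1)` -/
  pol2 : (Fin B.n2 → ℚ) →ₗ[ℚ] N2
  deg_res : ∀ x, deg (res x) = 0
  res_gysS : ∀ h, res (gysS h) + gysC (B.d2.mulVec h) = 0
  deg_gysC : ∀ z, deg (gysC z) + B.laplacian z = 0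
  res_pol1 : ∀ t, res (pol1 t) = pol2 (B.d1.mulVec t)
  deg_pol2 : ∀ h i, deg (pol2 h) i = B.degC i * B.d2.mulVec h i

attribute [instance] Divisors.addN1 Divisors.modN1 Divisors.addN2 Divisors.modN2

/-- Intersection numbers of divisors on the strata.  Integrals are over the strata. -/
structure Intersections {B : Components} (D : Divisors B) where
  /-- the form `∫ x x' L^(e+1)` on divisor classes of `Y^(w-2)` -/
  form1 : D.N1 →ₗ[ℚ] D.N1 →ₗ[ℚ] ℚ
  /-- the form `∫ v v' L^e` on divisor classes of `Y^(w-1)` -/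
  form2 : D.N2 →ₗ[ℚ] D.N2 →ₗ[ℚ] ℚ
  form2_symm : ∀ v v', form2 v v' = form2 v' v
  form2_gysC : ∀ z v, form2 (D.gysC z) v = z ⬝ᵥ D.deg v
  form2_pol2 : ∀ h h', form2 (D.pol2 h) (D.pol2 h') = ∑ i, B.degS i * h i * h' i
  form1_gysS : ∀ h x, form1 (D.gysS h) x = form2 (D.pol2 h) (D.res x)

/-- The Hodge index theorem for divisors on `Y^(w-2)` and on `Y^(w-1)`. -/
structure HodgeIndex {B : Components} {D : Divisors B} (I : Intersections D) : Prop where
  hodge1 : ∀ x, (∀ t, I.form1 x (D.pol1 t) = 0) → x ≠ 0 → I.form1 x x < 0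
  hodge2 : ∀ v, (∀ h, I.form2 v (D.pol2 h) = 0) → v ≠ 0 → I.form2 v v < 0

/-! ### Cohomology in degrees `0`, `2`, `4` -/

/-- `ℓ`-adic cohomology of the strata in even degrees, with the Tate twists trivialized over the
algebraic closure of `k` (`K` is `ℚ_ℓ`):
`V1 = H^2(Y^(w-2))`, `W1 = H^4(Y^(w-2))`, `V2 = H^2(Y^(w-1))`, `V3 = H^2(Y^(w))`. -/
structure Cohomology (B : Components) (K : Type) [Field K] [CharZero K] where
  (V1 W1 V2 V3 : Type)
  [addV1 : AddCommGroup V1]
  [modV1 : Module K V1]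
  [finV1 : FiniteDimensional K V1]
  [addW1 : AddCommGroup W1]
  [modW1 : Module K W1]
  [addV2 : AddCommGroup V2]
  [modV2 : Module K V2]
  [finV2 : FiniteDimensional K V2]
  [addV3 : AddCommGroup V3]
  [modV3 : Module K V3]
  /-- restriction `H^2(Y^(w-2)) → H^2(Y^(w-1))` -/
  res : V1 →ₗ[K] V2
  /-- restriction `H^2(Y^(w-1)) → H^2(Y^(w))` -/
  res2 : V2 →ₗ[K] V3
  /-- Gysin map `H^2(Y^(w-1)) → H^4(Y^(w-2))` -/
  gys : V2 →ₗ[K] W1
  /-- Gysin map `H^0(Y^(w)) → H^2(Y^(w-1))` -/
  gysC : (Fin B.n3 → K) →ₗ[K] V2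
  /-- Gysin map `H^0(Y^(w+1)) → H^2(Y^(w))` -/
  gysP : (Fin B.n4 → K) →ₗ[K] V3
  res2_res : ∀ x, res2 (res x) = 0
  gys_gysC : ∀ z, gys (gysC z) = 0
  res2_gysC : ∀ z, res2 (gysC z) + gysP (B.d3K K z) = 0
  /-- the form `∫ v v' L^e` on `H^2(Y^(w-1))` -/
  form2 : V2 →ₗ[K] V2 →ₗ[K] K
  form2_symm : ∀ v v', form2 v v' = form2 v' v
  /-- hard Lefschetz theorem on `Y^(w-1)` -/
  form2_nondeg : ∀ v, (∀ v', form2 v v' = 0) → v = 0
  /-- the pairing `∫ x y L^e` of `H^2(Y^(w-2))` and `H^4(Y^(w-2))` -/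
  pair : V1 →ₗ[K] W1 →ₗ[K] K
  form2_res : ∀ x v, form2 (res x) v = pair x (gys v)
  /-- `∫ (·) L^e` on the components of `Y^(w)` -/
  deg : V3 →ₗ[K] (Fin B.n3 → K)
  deg_gysP : ∀ u, deg (gysP u) = B.d3T K u

attribute [instance] Cohomology.addV1 Cohomology.modV1 Cohomology.finV1 Cohomology.addW1
  Cohomology.modW1 Cohomology.addV2 Cohomology.modV2 Cohomology.finV2 Cohomology.addV3
  Cohomology.modV3

/-- Frobenius on `H^2(Y^(w-2))` and on `H^2(Y^(w-1))`. -/
structure Frobenius {B : Components} {K : Type} [Field K] [CharZero K] (H : Cohomology B K) where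
  /-- the number of elements of the residue field -/
  q : ℕ
  q_pos : 0 < q
  /-- Frobenius on `H^2(Y^(w-2))` -/
  frob1 : Module.End K H.V1
  frob1_inj : Function.Injective frob1
  /-- Frobenius on `H^2(Y^(w-1))` -/
  frob2 : Module.End K H.V2
  frob2_res : ∀ x, frob2 (H.res x) = H.res (frob1 x)
  form2_frob : ∀ v v', H.form2 (frob2 v) (frob2 v') = (q : K) ^ 2 * H.form2 v v'

/-- Classes of divisors in `H^2(Y^(w-2))` and in `H^2(Y^(w-1))`. -/
structure CycleClasses {B : Components} {D : Divisors B} (I : Intersections D) {K : Type} [Field K]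
    [CharZero K] (H : Cohomology B K) where
  /-- cycle class map for divisors on `Y^(w-2)` -/
  cl1 : D.N1 →+ H.V1
  /-- cycle class map for divisors on `Y^(w-1)` -/
  cl2 : D.N2 →+ H.V2
  res_cl : ∀ x, H.res (cl1 x) = cl2 (D.res x)
  gysC_cl : ∀ z : Fin B.n3 → ℚ, H.gysC (fun i => (z i : K)) = cl2 (D.gysC z)
  form2_cl : ∀ v v', H.form2 (cl2 v) (cl2 v') = (I.form2 v v' : K)

namespace Cohomology

variable {B : Components} {K : Type} [Field K] [CharZero K] (H : Cohomology B K)

/-- `E_1^{-(w-2),2w-2}` and `E_1^{w-2,2}`, which are both `H^2(Y^(w-1)) ⊕ H^0(Y^(w+1))`. -/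
abbrev E1 : Type := H.V2 × (Fin B.n4 → K)

/-- The differential `E_1^{-(w-1),2w-2} → E_1^{-(w-2),2w-2}`, that is
`H^0(Y^(w)) → H^2(Y^(w-1)) ⊕ H^0(Y^(w+1))`. -/
def dA : (Fin B.n3 → K) →ₗ[K] H.E1 := H.gysC.prod (B.d3K K)

/-- The differential `E_1^{w-2,2} → E_1^{w-1,2}`, that is
`H^2(Y^(w-1)) ⊕ H^0(Y^(w+1)) → H^2(Y^(w)) ⊕ H^0(Y^(w+2))`. -/
def dF : H.E1 →ₗ[K] H.V3 × (Fin B.n5 → K) :=
  (H.res2.coprod H.gysP).prod ((B.d4K K).comp (LinearMap.snd K H.V2 (Fin B.n4 → K)))

/-- The differential `E_1^{-(w-2),2w-2} → E_1^{-(w-3),2w-2}`, that is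
`H^2(Y^(w-1)) ⊕ H^0(Y^(w+1)) → H^4(Y^(w-2)) ⊕ (H^2(Y^(w)) ⊕ H^0(Y^(w+2)))`. -/
def dC : H.E1 →ₗ[K] H.W1 × (H.V3 × (Fin B.n5 → K)) :=
  (H.gys.comp (LinearMap.fst K H.V2 (Fin B.n4 → K))).prod H.dF

/-- The differential `E_1^{w-3,2} → E_1^{w-2,2}`, that is
`H^2(Y^(w-2)) ⊕ H^0(Y^(w)) → H^2(Y^(w-1)) ⊕ H^0(Y^(w+1))`. -/
def dE : H.V1 × (Fin B.n3 → K) →ₗ[K] H.E1 :=
  ((LinearMap.inl K H.V2 (Fin B.n4 → K)).comp H.res).coprod H.dA

lemma dF_eq (y : H.E1) : H.dF y = (H.res2 y.1 + H.gysP y.2, B.d4K K y.2) := rfl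

lemma dC_eq (y : H.E1) : H.dC y = (H.gys y.1, H.dF y) := rfl

lemma dA_eq (z : Fin B.n3 → K) : H.dA z = (H.gysC z, B.d3K K z) := rfl

lemma dE_eq (y : H.V1 × (Fin B.n3 → K)) : H.dE y = (H.res y.1, 0) + H.dA y.2 := rfl

/-- `N^(w-2) : gr_{2w-2} H^w → gr_2 H^w` is bijective; this is the map
`E_2^{-(w-2),2w-2} → E_2^{w-2,2}`, which comes from the identity of
`H^2(Y^(w-1)) ⊕ H^0(Y^(w+1))`. -/
def Monodromy2 : Prop :=
  IsBijection (LinearMap.range H.dA) (LinearMap.ker H.dC) (LinearMap.range H.dE)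
    (LinearMap.ker H.dF)

/-- `gr_{2w-2} H^w` and `gr_2 H^w` have the same dimension. -/
def SameDimension2 : Prop :=
  SameDimension (LinearMap.range H.dA) (LinearMap.ker H.dC) (LinearMap.range H.dE)
    (LinearMap.ker H.dF)

/-- `N^w : gr_{2w} H^w → gr_0 H^w` is bijective; this is the map `E_2^{-w,2w} → E_2^{w,0}`, which
comes from the identity of `H^0(Y^(w+1))`; here `E_2^{-w,2w}` is the kernel of
`H^0(Y^(w+1)) → H^2(Y^(w)) ⊕ H^0(Y^(w+2))` and `E_2^{w,0}` is the cohomology of
`H^0(Y^(w)) → H^0(Y^(w+1)) → H^0(Y^(w+2))`. -/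
def Monodromy0 : Prop :=
  IsBijection ⊥ (LinearMap.ker H.gysP ⊓ LinearMap.ker (B.d4K K)) (LinearMap.range (B.d3K K))
    (LinearMap.ker (B.d4K K))

/-- `gr_{2w} H^w` and `gr_0 H^w` have the same dimension. -/
def SameDimension0 : Prop :=
  SameDimension ⊥ (LinearMap.ker H.gysP ⊓ LinearMap.ker (B.d4K K)) (LinearMap.range (B.d3K K))
    (LinearMap.ker (B.d4K K))

end Cohomology

/-! ### Cohomology in degrees `1`, `3` -/

/-- `ℓ`-adic cohomology of the strata in odd degrees: `A = H^1(Y^(w))`, `A' = H^1(Y^(w+1))`,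
`B = H^1(Y^(w-1))`, `B' = H^3(Y^(w-1))`. -/
structure CohomologyOne (K : Type) [Field K] where
  (A A' B B' : Type)
  [addA : AddCommGroup A]
  [modA : Module K A]
  [finA : FiniteDimensional K A]
  [addA' : AddCommGroup A']
  [modA' : Module K A']
  [addB : AddCommGroup B]
  [modB : Module K B]
  [addB' : AddCommGroup B']
  [modB' : Module K B']
  /-- restriction `H^1(Y^(w-1)) → H^1(Y^(w))` -/
  res : B →ₗ[K] A
  /-- restriction `H^1(Y^(w)) → H^1(Y^(w+1))` -/
  res2 : A →ₗ[K] A'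
  /-- Gysin map `H^1(Y^(w)) → H^3(Y^(w-1))` -/
  gys : A →ₗ[K] B'
  res2_res : ∀ x, res2 (res x) = 0
  /-- the form `∫ v v' L^e` on `H^1(Y^(w))` -/
  form : A →ₗ[K] A →ₗ[K] K
  form_alt : ∀ v, form v v = 0
  /-- the pairing `∫ x y L^e` of `H^1(Y^(w-1))` and `H^3(Y^(w-1))` -/
  pair : B →ₗ[K] B' →ₗ[K] K
  form_res : ∀ x v, form (res x) v = pair x (gys v)
  /-- The form is nondegenerate on the image of the restriction map: this form is the Weil
  pairing of a polarization of the Picard variety of `Y^(w)`, and the image of the restriction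
  map comes from an abelian subvariety. -/
  polarized : ∀ x, (∀ x', form (res x) (res x') = 0) → res x = 0

attribute [instance] CohomologyOne.addA CohomologyOne.modA CohomologyOne.finA CohomologyOne.addA'
  CohomologyOne.modA' CohomologyOne.addB CohomologyOne.modB CohomologyOne.addB' CohomologyOne.modB'

namespace CohomologyOne

variable {K : Type} [Field K] (H : CohomologyOne K)

/-- `N^(w-1) : gr_{2w-1} H^w → gr_1 H^w` is bijective; this is the map
`E_2^{-(w-1),2w-1} → E_2^{w-1,1}`, which comes from the identity of `H^1(Y^(w))`; here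
`E_2^{-(w-1),2w-1}` is the kernel of `H^1(Y^(w)) → H^3(Y^(w-1)) ⊕ H^1(Y^(w+1))` and `E_2^{w-1,1}`
is the cohomology of `H^1(Y^(w-1)) → H^1(Y^(w)) → H^1(Y^(w+1))`. -/
def Monodromy1 : Prop :=
  IsBijection ⊥ (LinearMap.ker H.gys ⊓ LinearMap.ker H.res2) (LinearMap.range H.res)
    (LinearMap.ker H.res2)

/-- `gr_{2w-1} H^w` and `gr_1 H^w` have the same dimension. -/
def SameDimension1 : Prop :=
  SameDimension ⊥ (LinearMap.ker H.gys ⊓ LinearMap.ker H.res2) (LinearMap.range H.res)
    (LinearMap.ker H.res2)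

end CohomologyOne

/-! ### The hypotheses on Frobenius -/

namespace Frobenius

variable {B : Components} {K : Type} [Field K] [CharZero K] {H : Cohomology B K} (F : Frobenius H)

/-- A consequence of Tate's conjecture for divisors on `Y^(w-2)` (which says that the generalized
eigenspace of Frobenius on `H^2(Y^(w-2))` for the eigenvalue `q` is spanned by classes of
divisors): every element of this generalized eigenspace has the same restriction to `Y^(w-1)` as a
linear combination of classes of divisors of `Y^(w-2)`. -/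
def TateDivisors {D : Divisors B} {I : Intersections D} (C : CycleClasses I H) : Prop :=
  ∀ x : H.V1, x ∈ F.frob1.maxGenEigenspace (F.q : K) →
    ∃ y ∈ Submodule.span K (Set.range C.cl1), H.res x = H.res y

/-- Frobenius preserves the image of `H^2(Y^(w-2)) → H^2(Y^(w-1))`. -/
lemma frob2_mem_range : ∀ v ∈ LinearMap.range H.res, F.frob2 v ∈ LinearMap.range H.res := by
  rintro _ ⟨x, rfl⟩
  exact ⟨F.frob1 x, (F.frob2_res x).symm⟩

/-- Frobenius on the image of `H^2(Y^(w-2)) → H^2(Y^(w-1))` -/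
def frobIm : Module.End K (LinearMap.range H.res) := F.frob2.restrict F.frob2_mem_range

/-- The condition on the eigenvalues of Frobenius. For every eigenvalue `α ≠ q` of Frobenius on
the image of `H^2(Y^(w-2)) → H^2(Y^(w-1))`, one of the following holds:

* `α` is a simple root of the characteristic polynomial of Frobenius on `H^2(Y^(w-1))`, and is
  conjugate over `K` to `q ^ 2 / α`;
* the multiplicity of `q ^ 2 / α` as an eigenvalue of Frobenius on the image of
  `H^2(Y^(w-2)) → H^2(Y^(w-1))` is the same as on `H^2(Y^(w-1))`. -/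
def EigenvalueCondition : Prop :=
  ∀ α : AlgebraicClosure K, α ≠ (F.q : AlgebraicClosure K) →
    Polynomial.aeval α F.frobIm.charpoly = 0 →
    (Polynomial.aeval α (Polynomial.derivative F.frob2.charpoly) ≠ 0 ∧
      IsConjRoot K α ((F.q : AlgebraicClosure K) ^ 2 / α)) ∨
    Polynomial.rootMultiplicity ((F.q : AlgebraicClosure K) ^ 2 / α)
        (F.frob2.charpoly.map (algebraMap K (AlgebraicClosure K))) ≤
      Polynomial.rootMultiplicity ((F.q : AlgebraicClosure K) ^ 2 / α)
        (F.frobIm.charpoly.map (algebraMap K (AlgebraicClosure K)))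

end Frobenius

end Pool.Agent.TH131.MW
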