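import Mathlib
import Pool.Agent.W522.C.C4

/-!
# The part of a similitude without common multiple eigenvalues
-/

set_option autoImplicit false

namespace Pool.Agent.TH131.MW

open Module Polynomial

section

variable {K V : Type*} [Field K] [CharZero K] [AddCommGroup V] [Module K V]
  [FiniteDimensional K V]

/-- `X ^ r P(c / X)` for `P` of degree at most `r` -/
noncomputable def rev (c : K) (r : ℕ) (P : K[X]) : K[X] :=
  ∑ i ∈ Finset.range (r + 1), C (P.coeff i * c ^ i) * X ^ (r - i)

omit [CharZero K] in
lemma aeval_rev {L : Type*} [Field L] [Algebra K L] (c : K) (r : ℕ) (P : K[X])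
    (hP : P.natDegree ≤ r) (α : L) (hα : α ≠ 0) :
    aeval α (rev c r P) = α ^ r * aeval (algebraMap K L c / α) P := by
  rw [rev, map_sum, aeval_eq_sum_range' (Nat.lt_succ_of_le hP), Finset.mul_sum]
  refine Finset.sum_congr rfl fun i hi => ?_
  have hi' : i ≤ r := Nat.lt_succ_iff.1 (Finset.mem_range.1 hi)
  rw [map_mul, aeval_C, map_pow, aeval_X, map_mul, map_pow, Algebra.smul_def, div_pow]
  have h1 : α ^ r = α ^ (r - i) * α ^ i := by rw [← pow_add, Nat.sub_add_cancel hi']
  rw [h1]
  field_simp

/-- If `R` and `R'` are stable under a similitude and orthogonal to each other, then the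
characteristic polynomial of the similitude is divisible by that of `R'` times the dual of that
of `R`. (A variant of `Pool.Agent.W522.C.charpoly_dvd`.) -/
theorem charpoly_dvd_mul (b : V →ₗ[K] V →ₗ[K] K) (hb : ∀ x, (∀ y, b x y = 0) → x = 0)
    (g : Module.End K V) {c : K} (hc : c ≠ 0) (hg : ∀ x y, b (g x) (g y) = c * b x y)
    (R R' : Submodule K V) (hR : R ≤ R.comap g) (hR' : R' ≤ R'.comap g)
    (hiso : ∀ x ∈ R, ∀ y ∈ R', b x y = 0) :
    ∃ f : K[X], (g.restrict hR').charpoly * f ∣ g.charpoly ∧
      LinearMap.det (g.restrict hR) ≠ 0 ∧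
      ∀ t : K, t ≠ 0 → f.eval t * (LinearMap.det (g.restrict hR)) =
        (-t) ^ (finrank K R) * (g.restrict hR).charpoly.eval (c / t) := by
  have hginj : Function.Injective g := by
    rw [← LinearMap.ker_eq_bot, LinearMap.ker_eq_bot']
    intro x hx
    apply hb
    intro y
    have h1 := hg x y
    rw [hx, map_zero, LinearMap.zero_apply] at h1
    exact (mul_eq_zero.1 h1.symm).resolve_left hc
  have hRinj : Function.Injective (g.restrict hR) := by
    intro x y hxy
    apply Subtype.ext
    exact hginj (congrArg Subtype.val hxy)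
  let e : R ≃ₗ[K] R := LinearEquiv.ofInjectiveEndo (g.restrict hR) hRinj
  have he : ∀ x, e x = g.restrict hR x := fun x => rfl
  have hdet : LinearMap.det (g.restrict hR) ≠ 0 := by
    have h1 : IsUnit (LinearMap.det (e : R →ₗ[K] R)) := LinearEquiv.isUnit_det' e
    exact h1.ne_zero
  set π := Pool.Agent.W522.C.piR b R with hπ
  have hsurj := Pool.Agent.W522.C.piR_surj b hb R
  let h : Module.End K (Dual K R) := c • (e.symm : R →ₗ[K] R).dualMap
  have hπg : ∀ v, π (g v) = h (π v) := by
    intro v
    apply LinearMap.ext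
    intro x
    change b x (g v) = c * b (e.symm x) v
    rw [← hg]
    congr 2
    change (x : V) = ((g.restrict hR (e.symm x) : R) : V)
    rw [← he, LinearEquiv.apply_symm_apply]
  have hU : LinearMap.ker π ≤ (LinearMap.ker π).comap g := by
    intro v hv
    rw [Submodule.mem_comap, LinearMap.mem_ker, hπg, LinearMap.mem_ker.1 hv, map_zero]
  let E : (V ⧸ LinearMap.ker π) ≃ₗ[K] Dual K R := π.quotKerEquivOfSurjective hsurj
  have hcp : ((LinearMap.ker π).mapQ (LinearMap.ker π) g hU).charpoly = h.charpoly := by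
    rw [← LinearEquiv.charpoly_conj E]
    congr 1
    apply LinearMap.ext
    intro f
    obtain ⟨v, rfl⟩ := hsurj f
    rw [LinearEquiv.conj_apply_apply]
    have h1 : E.symm (π v) = Submodule.Quotient.mk v := by
      rw [LinearEquiv.symm_apply_eq]
      rfl
    rw [h1, Submodule.mapQ_apply]
    exact hπg v
  refine ⟨h.charpoly, ?_, hdet, ?_⟩
  · rw [Pool.Agent.W522.C.charpoly_eq_mul g (LinearMap.ker π) hU, hcp]
    refine mul_dvd_mul_right (Pool.Agent.W522.C.charpoly_dvd_of_le g R' _ hR' hU ?_) _
    intro y hy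
    rw [LinearMap.mem_ker]
    apply LinearMap.ext
    intro x
    exact hiso x x.2 y hy
  · intro t ht
    rw [LinearMap.eval_charpoly, LinearMap.eval_charpoly]
    have h1 : algebraMap K (Module.End K (Dual K R)) t - h =
        (algebraMap K (Module.End K R) t - c • (e.symm : R →ₗ[K] R)).dualMap := by
      apply LinearMap.ext
      intro f
      apply LinearMap.ext
      intro x
      change t * f x - c * f (e.symm x) = f (t • x - c • e.symm x)
      rw [map_sub, map_smul, map_smul]
      rfl
    rw [h1, LinearMap.det_dualMap, ← LinearMap.det_comp]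
    have h2 : (algebraMap K (Module.End K R) t - c • (e.symm : R →ₗ[K] R)) ∘ₗ (g.restrict hR) =
        (-t) • (algebraMap K (Module.End K R) (c / t) - g.restrict hR) := by
      apply LinearMap.ext
      intro x
      change t • g.restrict hR x - c • e.symm (e x) = (-t) • ((c / t) • x - g.restrict hR x)
      rw [LinearEquiv.symm_apply_apply, smul_sub, smul_smul, neg_mul, mul_div_cancel₀ _ ht]
      module
    rw [h2, LinearMap.det_smul]

/-- A subspace `J` of a stable subspace `I`, which is orthogonal to `I` and stable under a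
similitude of a nondegenerate form, vanishes under a condition on the eigenvalues. -/
theorem isotropic_eq_bot (b : V →ₗ[K] V →ₗ[K] K) (hb : ∀ x, (∀ y, b x y = 0) → x = 0)
    (φ : Module.End K V) {c : K} (hc : c ≠ 0) (hφ : ∀ x y, b (φ x) (φ y) = c * b x y)
    (J I : Submodule K V) (hJ : J ≤ J.comap φ) (hI : I ≤ I.comap φ) (hJI : J ≤ I)
    (hiso : ∀ x ∈ J, ∀ y ∈ I, b x y = 0)
    (hE : ∀ α : AlgebraicClosure K, aeval α (minpoly K (φ.restrict hJ)) = 0 →
      (aeval α (derivative φ.charpoly) ≠ 0 ∧
      IsConjRoot K α (algebraMap K (AlgebraicClosure K) c / α)) ∨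
      rootMultiplicity (algebraMap K (AlgebraicClosure K) c / α)
        (φ.charpoly.map (algebraMap K (AlgebraicClosure K))) ≤
      rootMultiplicity (algebraMap K (AlgebraicClosure K) c / α)
        ((φ.restrict hI).charpoly.map (algebraMap K (AlgebraicClosure K)))) :
    J = ⊥ := by
  by_contra hne
  have : Nontrivial J := Submodule.nontrivial_iff_ne_bot.2 hne
  obtain ⟨F, hdvd, hdet, hF⟩ := charpoly_dvd_mul b hb φ hc hφ J I hJ hI hiso
  set P := (φ.restrict hJ).charpoly with hP
  have hPI : P ∣ (φ.restrict hI).charpoly :=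
    Pool.Agent.W522.C.charpoly_dvd_of_le φ J I hJ hI hJI
  have hPdeg : P.natDegree = finrank K J := LinearMap.charpoly_natDegree _
  set δ := LinearMap.det (φ.restrict hJ) with hδ
  -- polynomial identity
  have hpoly : C δ * F = C ((-1) ^ finrank K J) * rev c (finrank K J) P := by
    apply Polynomial.eq_of_infinite_eval_eq
    refine Set.Infinite.mono (s := {0}ᶜ) ?_ (Set.finite_singleton (0 : K)).infinite_compl
    intro t ht
    have ht' : t ≠ 0 := ht
    have h1 := aeval_rev c (finrank K J) P hPdeg.le t ht'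
    rw [Polynomial.coe_aeval_eq_eval, Polynomial.coe_aeval_eq_eval] at h1
    change eval t _ = eval t _
    rw [eval_mul, eval_C, eval_mul, eval_C, h1, mul_comm, hF t ht', neg_pow]
    simp only [Algebra.algebraMap_self, RingHom.id_apply]
    ring
  -- an eigenvalue
  have hint : IsIntegral K (φ.restrict hJ) := Algebra.IsIntegral.isIntegral _
  obtain ⟨α, hα⟩ : ∃ α : AlgebraicClosure K, aeval α (minpoly K (φ.restrict hJ)) = 0 := by
    apply IsAlgClosed.exists_aeval_eq_zero
    rw [Polynomial.degree_eq_natDegree (minpoly.ne_zero hint)]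
    exact_mod_cast (minpoly.natDegree_pos hint).ne'
  have hPα : aeval α P = 0 := by
    obtain ⟨R, hR⟩ := LinearMap.minpoly_dvd_charpoly (φ.restrict hJ)
    rw [hP, hR, map_mul, hα, zero_mul]
  have hP0 : P.eval 0 ≠ 0 := by
    rw [hP, LinearMap.eval_charpoly, map_zero, zero_sub, ← neg_one_smul K (φ.restrict hJ),
      LinearMap.det_smul]
    exact mul_ne_zero (pow_ne_zero _ (neg_ne_zero.2 one_ne_zero)) hdet
  have hα0 : α ≠ 0 := by
    rintro rfl
    apply hP0
    have h3 : aeval (algebraMap K (AlgebraicClosure K) 0) P = 0 := by rwa [map_zero]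
    rw [aeval_algebraMap_apply, Polynomial.coe_aeval_eq_eval] at h3
    exact (map_eq_zero _).1 h3
  have hc' : algebraMap K (AlgebraicClosure K) c ≠ 0 := (_root_.map_ne_zero _).2 hc
  -- the roots of `F`
  have hFroot : ∀ β : AlgebraicClosure K, β ≠ 0 →
      aeval (algebraMap K (AlgebraicClosure K) c / β) P = 0 → aeval β F = 0 := by
    intro β hβ0 hβ
    have h3 := congrArg (aeval β) hpoly
    rw [map_mul, map_mul, aeval_C, aeval_rev c _ P hPdeg.le β hβ0, hβ, mul_zero, mul_zero] at h3
    rcases mul_eq_zero.1 h3 with h4 | h4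
    · exact absurd ((map_eq_zero _).1 h4) hdet
    · exact h4
  rcases hE α hα with ⟨h1, h2⟩ | h1
  · have hPβ : aeval (algebraMap K (AlgebraicClosure K) c / α) P = 0 := by
      have h3 : minpoly K α ∣ P := minpoly.dvd K α hPα
      rw [h2] at h3
      obtain ⟨R, hR⟩ := h3
      rw [hR, map_mul, minpoly.aeval, zero_mul]
    have hFα := hFroot α hα0 hPβ
    apply h1
    obtain ⟨H, hH⟩ := hdvd
    obtain ⟨Q, hQ⟩ := hPI
    rw [hH, hQ, derivative_mul, derivative_mul, derivative_mul]
    simp only [map_add, map_mul, hPα, hFα]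
    ring
  · set β := algebraMap K (AlgebraicClosure K) c / α with hβ
    have hβ0 : β ≠ 0 := div_ne_zero hc' hα0
    have hFβ : aeval β F = 0 := by
      apply hFroot β hβ0
      rw [hβ, div_div_cancel₀ hc']
      exact hPα
    have h2 := Polynomial.map_dvd (algebraMap K (AlgebraicClosure K)) hdvd
    have h3 : (φ.charpoly.map (algebraMap K (AlgebraicClosure K))) ≠ 0 :=
      ((LinearMap.charpoly_monic φ).map _).ne_zero
    have h4 := rootMultiplicity_le_rootMultiplicity_of_dvd h3 h2 β
    have h5 := ne_zero_of_dvd_ne_zero h3 h2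
    rw [Polynomial.map_mul] at h4 h5
    rw [rootMultiplicity_mul h5] at h4
    have h6 : 0 < rootMultiplicity β (F.map (algebraMap K (AlgebraicClosure K))) := by
      rw [rootMultiplicity_pos (right_ne_zero_of_mul h5), IsRoot.def, eval_map_algebraMap]
      exact hFβ
    omega

/-- Polynomials in intertwined endomorphisms are intertwined. -/
lemma aeval_intertwine {K V W : Type*} [Field K] [AddCommGroup V] [Module K V] [AddCommGroup W]
    [Module K W] (f : V →ₗ[K] W) (φ : Module.End K V) (ψ : Module.End K W)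
    (h : ∀ v, ψ (f v) = f (φ v)) (p : K[X]) (v : V) : aeval ψ p (f v) = f (aeval φ p v) := by
  induction p using Polynomial.induction_on' with
  | add p r hp hr => rw [map_add, map_add, LinearMap.add_apply, LinearMap.add_apply, map_add,
      hp, hr]
  | monomial n a =>
    rw [aeval_monomial, aeval_monomial, Module.End.mul_apply, Module.End.mul_apply,
      Module.algebraMap_end_apply, Module.algebraMap_end_apply, map_smul]
    congr 1
    induction n generalizing v with
    | zero => simp
    | succ n ih => rw [pow_succ, pow_succ, Module.End.mul_apply, Module.End.mul_apply, h, ih]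

lemma aeval_comm {K V : Type*} [Field K] [AddCommGroup V] [Module K V] (φ : Module.End K V)
    (p : K[X]) (v : V) : aeval φ p (φ v) = φ (aeval φ p v) :=
  (aeval_intertwine φ φ φ (fun _ => rfl) p v)

omit [CharZero K] [FiniteDimensional K V] in
/-- Adjoint of `(φ - q) ^ k` -/
lemma adj_sub_pow (b : V →ₗ[K] V →ₗ[K] K) (φ : Module.End K V) {q : K}
    (hφ : ∀ x y, b (φ x) (φ y) = q ^ 2 * b x y) (k : ℕ) (v w : V) :
    b (((φ - q • 1) ^ k) v) ((φ ^ k) w) = (-q) ^ k * b v (((φ - q • 1) ^ k) w) := by
  induction k generalizing v w with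
  | zero => simp
  | succ k ih =>
    have h1 : ∀ u w', b ((φ - q • 1) u) (φ w') = -q * b u ((φ - q • 1) w') := by
      intro u w'
      simp only [LinearMap.sub_apply, LinearMap.smul_apply, Module.End.one_apply, map_sub,
        map_smul, smul_eq_mul, hφ]
      ring
    have h2 : (φ ^ k) ((φ - q • 1) w) = (φ - q • 1) ((φ ^ k) w) := by
      have h3 : Commute (φ ^ k) (φ - q • 1) :=
        ((Commute.refl φ).pow_left k).sub_right ((Commute.one_right _).smul_right _)
      exact congrArg (fun f : Module.End K V => f w) h3.eq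
    rw [pow_succ' (φ - q • 1), pow_succ' φ, Module.End.mul_apply, Module.End.mul_apply, h1, ← h2,
      ih, ← pow_succ' (φ - q • 1), pow_succ (φ - q • 1), Module.End.mul_apply, pow_succ (-q)]
    ring

omit [CharZero K] [FiniteDimensional K V] in
/-- Orthogonality of the generalized eigenspace for `q` and the other primary parts. -/
lemma pair_primary (b : V →ₗ[K] V →ₗ[K] K) (φ : Module.End K V) {q : K} (hq : q ≠ 0)
    (hφ : ∀ x y, b (φ x) (φ y) = q ^ 2 * b x y) (k : ℕ) (g : K[X])
    (hg : IsCoprime ((X - C q) ^ k) g) (v w : V) (hv : ((φ - q • 1) ^ k) v = 0)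
    (hw : aeval φ g w = 0) : b v w = 0 := by
  obtain ⟨a, b', hab⟩ := hg
  have h1 : aeval φ ((X - C q) ^ k) = (φ - q • 1) ^ k := by
    rw [map_pow, map_sub, aeval_X, aeval_C, Algebra.algebraMap_eq_smul_one]
  have h2 : w = ((φ - q • 1) ^ k) (aeval φ a w) := by
    have h3 := congrArg (fun p => aeval φ p w) hab
    simp only [map_add, map_mul, h1, LinearMap.add_apply, Module.End.mul_apply, hw, map_zero,
      add_zero, map_one, Module.End.one_apply] at h3
    rw [← h1, ← Module.End.mul_apply, ← map_mul, mul_comm, map_mul, Module.End.mul_apply, h1]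
    exact h3.symm
  have h4 := adj_sub_pow b φ hφ k v (aeval φ a w)
  rw [hv, map_zero, LinearMap.zero_apply, ← h2] at h4
  exact (mul_eq_zero.1 h4.symm).resolve_left (pow_ne_zero _ (neg_ne_zero.2 hq))

end

end Pool.Agent.TH131.MW
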