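import Pool.Agent.TH131.MW.Rat
import Pool.Agent.TH131.MW.Frob

/-!
# Bijectivity of the monodromy map on the part of weight two
-/

set_option autoImplicit false

namespace Pool.Agent.TH131.MW

open Module Polynomial

/-- Elements of the span of the image of an additive map, in terms of a basis of `K` over `ℚ`. -/
lemma exists_combo {K : Type*} [Field K] [CharZero K] {N V : Type*} [AddCommGroup N]
    [Module ℚ N] [AddCommGroup V] [Module K V] {ι : Type*} (B : Basis ι ℚ K) (cl : N →+ V)
    (x : V) (hx : x ∈ Submodule.span K (Set.range cl)) :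
    ∃ y : ι →₀ N, x = y.sum fun k n => B k • cl n := by
  classical
  let T : (ι →₀ N) →+ V :=
    Finsupp.liftAddHom fun k => (DistribSMul.toAddMonoidHom V (B k)).comp cl
  have hT : ∀ y : ι →₀ N, T y = y.sum fun k n => B k • cl n := fun y => rfl
  suffices h : x ∈ T.range by
    obtain ⟨y, hy⟩ := h
    exact ⟨y, by rw [← hy, hT]⟩
  have h1 : ∀ (c : K) (n : N), c • cl n ∈ T.range := by
    intro c n
    refine ⟨(B.repr c).mapRange (fun r : ℚ => r • n) (zero_smul ℚ n), ?_⟩
    rw [hT, Finsupp.sum_mapRange_index (by simp)]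
    have h2 : ∀ r : ℚ, cl (r • n) = (r : K) • cl n := by
      intro r
      have := map_ratCast_smul cl ℚ K r n
      simpa using this
    simp only [h2, smul_smul]
    have h3 : c = (B.repr c).sum fun k r => B k * (r : K) := by
      conv_lhs => rw [← B.linearCombination_repr c, Finsupp.linearCombination_apply]
      refine Finsupp.sum_congr fun k _ => ?_
      rw [Rat.smul_def, mul_comm]
    conv_rhs => rw [h3]
    rw [Finsupp.sum, Finsupp.sum, Finset.sum_smul]
  rw [Finsupp.mem_span_range_iff_exists_finsupp] at hx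
  obtain ⟨c, hc⟩ := hx
  rw [← hc]
  exact sum_mem fun i _ => h1 _ _

namespace Frobenius

variable {B : Components} {D : Divisors B} {I : Intersections D} {K : Type} [Field K]
  [CharZero K] {H : Cohomology B K} (Z : CycleClasses I H) (F : Frobenius H)

/-- the algebraic part -/
lemma _root_.Pool.Agent.TH131.MW.CycleClasses.alg_part (hI : HodgeIndex I) (x : H.V1) (hx : x ∈ Submodule.span K (Set.range Z.cl1))
    (h : ∀ x' : D.N1, H.form2 (H.res x) (H.res (Z.cl1 x')) = 0) :
    ∃ z, B.d3K K z = 0 ∧ H.res x = H.gysC z := by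
  classical
  let b := Module.Free.chooseBasis ℚ K
  obtain ⟨y, rfl⟩ := exists_combo b Z.cl1 x hx
  have hres : H.res (y.sum fun k n => b k • Z.cl1 n) = y.sum fun k n => b k • Z.cl2 (D.res n) := by
    rw [Finsupp.sum, map_sum, Finsupp.sum]
    exact Finset.sum_congr rfl fun k _ => by rw [map_smul, Z.res_cl]
  -- each coefficient is isotropic
  have hy : ∀ (k) (x' : D.N1), I.form2 (D.res (y k)) (D.res x') = 0 := by
    intro k x'
    let φ : D.N1 →+ ℚ := ((I.form2.flip (D.res x')).comp D.res).toAddMonoidHom
    have h1 : (y.sum fun k n => b k * (φ n : K)) = 0 := by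
      have h2 := h x'
      rw [hres, Finsupp.sum, map_sum, LinearMap.sum_apply] at h2
      rw [Finsupp.sum, ← h2]
      refine Finset.sum_congr rfl fun k _ => ?_
      rw [map_smul, LinearMap.smul_apply, Z.res_cl, Z.form2_cl, smul_eq_mul]
      rfl
    have h3 : Finsupp.linearCombination ℚ b (y.mapRange φ (map_zero φ)) = 0 := by
      rw [Finsupp.linearCombination_apply, Finsupp.sum_mapRange_index (by simp), ← h1]
      refine Finsupp.sum_congr fun k _ => ?_
      rw [Rat.smul_def, mul_comm]
    have h4 : y.mapRange φ (map_zero φ) = 0 := b.linearIndependent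
      (h3.trans (map_zero _).symm)
    have h5 := congrArg (fun f => f k) h4
    exact h5
  choose z hz1 hz2 using fun k => hI.main (y k) (hy k)
  refine ⟨∑ k ∈ y.support, b k • (fun i => (z k i : K)), ?_, ?_⟩
  · rw [map_sum]
    refine Finset.sum_eq_zero fun k _ => ?_
    rw [map_smul]
    have h1 : B.d3K K (fun i => (z k i : K)) = 0 := by
      ext i
      have h2 := congrArg (fun f => ((f i : ℚ) : K)) (hz1 k)
      simp only [Matrix.mulVec, dotProduct, Pi.zero_apply, Rat.cast_zero, Rat.cast_sum,
        Rat.cast_mul] at h2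
      exact h2
    rw [h1, smul_zero]
  · rw [hres, map_sum, Finsupp.sum]
    refine Finset.sum_congr rfl fun k _ => ?_
    rw [map_smul, Z.gysC_cl, hz2 k]

/-- the main point: classes whose restriction is orthogonal to all restrictions -/
lemma key (hI : HodgeIndex I) (hT : F.TateDivisors Z) (hE : F.EigenvalueCondition) (x : H.V1)
    (hx : ∀ x', H.form2 (H.res x) (H.res x') = 0) :
    ∃ z, B.d3K K z = 0 ∧ H.res x = H.gysC z := by
  set q : K := (F.q : K) with hq
  have hq0 : q ≠ 0 := by
    rw [hq]
    exact_mod_cast F.q_pos.ne'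
  -- primary decomposition
  obtain ⟨g, hg1, hg2⟩ := Polynomial.exists_eq_pow_rootMultiplicity_mul_and_not_dvd
    F.frob1.charpoly (LinearMap.charpoly_monic _).ne_zero q
  set k := rootMultiplicity q F.frob1.charpoly with hk
  have hirr : Irreducible (X - Polynomial.C q : K[X]) := irreducible_X_sub_C q
  have hcop : IsCoprime ((X - Polynomial.C q) ^ k) g := (hirr.coprime_iff_not_dvd.2 hg2).pow_left
  have haev : aeval F.frob1 ((X - Polynomial.C q) ^ k) = (F.frob1 - q • 1) ^ k := by
    rw [map_pow, map_sub, aeval_X, Polynomial.aeval_C, Algebra.algebraMap_eq_smul_one]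
  have hCH : ∀ v, aeval F.frob1 ((X - Polynomial.C q) ^ k) (aeval F.frob1 g v) = 0 := by
    intro v
    rw [← Module.End.mul_apply, ← map_mul, ← hg1, LinearMap.aeval_self_charpoly,
      LinearMap.zero_apply]
  have hCH' : ∀ v, aeval F.frob1 g (aeval F.frob1 ((X - Polynomial.C q) ^ k) v) = 0 := by
    intro v
    rw [← Module.End.mul_apply, ← map_mul, mul_comm, ← hg1, LinearMap.aeval_self_charpoly,
      LinearMap.zero_apply]
  have hdec : ∀ v : H.V1, ∃ t u, v = t + u ∧ ((F.frob1 - q • 1) ^ k) t = 0 ∧
      aeval F.frob1 g u = 0 := by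
    intro v
    obtain ⟨a, b, hab⟩ := hcop
    refine ⟨aeval F.frob1 b (aeval F.frob1 g v),
      aeval F.frob1 a (aeval F.frob1 ((X - Polynomial.C q) ^ k) v), ?_, ?_, ?_⟩
    · have h3 := congrArg (fun p => aeval F.frob1 p v) hab
      simp only [map_add, map_mul, LinearMap.add_apply, Module.End.mul_apply, map_one,
        Module.End.one_apply] at h3
      rw [add_comm]
      exact h3.symm
    · rw [← haev, ← Module.End.mul_apply, ← map_mul, mul_comm, map_mul, Module.End.mul_apply, hCH,
        map_zero]
    · rw [← Module.End.mul_apply, ← map_mul, mul_comm, map_mul, Module.End.mul_apply, hCH',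
        map_zero]
  -- functoriality
  have hfun : ∀ (p : K[X]) (v : H.V1), aeval F.frob2 p (H.res v) = H.res (aeval F.frob1 p v) :=
    aeval_intertwine H.res F.frob1 F.frob2 F.frob2_res
  have hfunT : ∀ t : H.V1, ((F.frob1 - q • 1) ^ k) t = 0 →
      ((F.frob2 - q • 1) ^ k) (H.res t) = 0 := by
    intro t ht
    have h1 := hfun ((X - Polynomial.C q) ^ k) t
    rw [haev, ht, map_zero, map_pow, map_sub, aeval_X, Polynomial.aeval_C,
      Algebra.algebraMap_eq_smul_one] at h1
    exact h1
  have horth : ∀ t u : H.V1, ((F.frob1 - q • 1) ^ k) t = 0 → aeval F.frob1 g u = 0 →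
      H.form2 (H.res t) (H.res u) = 0 := by
    intro t u ht hu
    refine pair_primary H.form2 F.frob2 hq0 F.form2_frob k g hcop _ _ (hfunT t ht) ?_
    rw [hfun, hu, map_zero]
  obtain ⟨t, u, rfl, ht, hu⟩ := hdec x
  -- the components are separately orthogonal to all restrictions
  have hu' : ∀ x', H.form2 (H.res u) (H.res x') = 0 := by
    intro x'
    obtain ⟨t', u', rfl, ht', hu'⟩ := hdec x'
    have h1 := hx u'
    rw [map_add, map_add, LinearMap.add_apply, horth t u' ht hu', zero_add] at h1
    rw [map_add, map_add, h1, add_zero, H.form2_symm, horth t' u ht' hu]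
  have ht' : ∀ x', H.form2 (H.res t) (H.res x') = 0 := by
    intro x'
    have h1 := hx x'
    rw [map_add, map_add, LinearMap.add_apply, hu', add_zero] at h1
    exact h1
  -- the algebraic component
  obtain ⟨t₀, ht₀, hres₀⟩ := hT t (by
    rw [Module.End.mem_maxGenEigenspace]
    exact ⟨k, ht⟩)
  obtain ⟨z, hz1, hz2⟩ := Z.alg_part hI t₀ ht₀ (fun x' => by rw [← hres₀]; exact ht' _)
  refine ⟨z, hz1, ?_⟩
  rw [map_add, hres₀, hz2]
  -- the other component
  have hsurj : Function.Surjective F.frob1 := LinearMap.surjective_of_injective F.frob1_inj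
  let J : Submodule K H.V2 := (LinearMap.ker (aeval F.frob1 g)).map H.res ⊓
    { carrier := {v | ∀ x', H.form2 v (H.res x') = 0}
      add_mem' := fun {a b} ha hb x' => by
        rw [map_add, LinearMap.add_apply, ha, hb, add_zero]
      zero_mem' := fun x' => by rw [map_zero, LinearMap.zero_apply]
      smul_mem' := fun c a ha x' => by rw [map_smul, LinearMap.smul_apply, ha, smul_zero] }
  have hJ : J ≤ J.comap F.frob2 := by
    rintro v ⟨⟨w, hw, rfl⟩, hv⟩
    refine ⟨⟨F.frob1 w, ?_, (F.frob2_res w).symm⟩, ?_⟩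
    · change aeval F.frob1 g (F.frob1 w) = 0
      rw [aeval_comm, show aeval F.frob1 g w = 0 from hw, map_zero]
    · intro x'
      obtain ⟨y, rfl⟩ := hsurj x'
      rw [← F.frob2_res, F.form2_frob, hv y, mul_zero]
  have hJ2 : ∀ v ∈ J, F.frob2 v ∈ J := hJ
  have hI : LinearMap.range H.res ≤ (LinearMap.range H.res).comap F.frob2 := F.frob2_mem_range
  have hJI : J ≤ LinearMap.range H.res := by
    rintro v ⟨⟨w, _, rfl⟩, _⟩
    exact ⟨w, rfl⟩
  have hJ0 : J = ⊥ := by
    refine isotropic_eq_bot H.form2 H.form2_nondeg F.frob2 (pow_ne_zero 2 hq0) F.form2_frob J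
      (LinearMap.range H.res) hJ hI hJI ?_ ?_
    · rintro v ⟨_, hv⟩ _ ⟨y, rfl⟩
      exact hv y
    · intro α hα
      have h1 : aeval (LinearMap.restrict F.frob2 hJ2 : Module.End K J) g = 0 := by
        apply LinearMap.ext
        rintro ⟨v, hv⟩
        apply Subtype.ext
        have h2 := aeval_intertwine J.subtype (LinearMap.restrict F.frob2 hJ2 : Module.End K J)
          F.frob2 (fun _ => rfl) g ⟨v, hv⟩
        obtain ⟨⟨w, hw, hwv⟩, _⟩ := hv
        have h3 : aeval F.frob2 g v = 0 := by
          rw [← hwv, hfun, show aeval F.frob1 g w = 0 from hw, map_zero]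
        exact h2.symm.trans h3
      have h3 : aeval α g = 0 := by
        obtain ⟨r, hr⟩ := minpoly.dvd K _ h1
        rw [hr, map_mul, hα, zero_mul]
      have h4 : aeval α F.frobIm.charpoly = 0 := by
        obtain ⟨r, hr⟩ := Pool.Agent.W522.C.charpoly_dvd_of_le F.frob2 J _ hJ hI hJI
        obtain ⟨r', hr'⟩ := LinearMap.minpoly_dvd_charpoly
          (LinearMap.restrict F.frob2 hJ : Module.End K J)
        change aeval α (LinearMap.charpoly (LinearMap.restrict F.frob2 hI :
          Module.End K (LinearMap.range H.res))) = 0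
        rw [hr, hr', map_mul, map_mul, hα, zero_mul, zero_mul]
      have h6 : α ≠ (F.q : AlgebraicClosure K) := by
        rintro rfl
        apply hg2
        rw [dvd_iff_isRoot, IsRoot.def]
        have h7 : aeval (algebraMap K (AlgebraicClosure K) q) g = 0 := by
          rw [hq, map_natCast]
          exact h3
        rw [aeval_algebraMap_apply, Polynomial.coe_aeval_eq_eval] at h7
        exact (map_eq_zero _).1 h7
      have h8 := hE α h6 h4
      have h9 : algebraMap K (AlgebraicClosure K) (q ^ 2) = (F.q : AlgebraicClosure K) ^ 2 := by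
        rw [map_pow, hq, map_natCast]
      rw [h9]
      exact h8
  have huJ : H.res u ∈ J := ⟨⟨u, hu, rfl⟩, hu'⟩
  rw [hJ0, Submodule.mem_bot] at huJ
  rw [huJ, add_zero]

end Frobenius

end Pool.Agent.TH131.MW
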