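import Pool.Agent.TH131.MW.Defs

/-!
# The algebraic part: linear algebra over the rational numbers
-/

set_option autoImplicit false

namespace Pool.Agent.TH131.MW

open Module Matrix

/-- representing functionals on a finite dimensional anisotropic subspace -/
theorem exists_rep {V : Type*} [AddCommGroup V] [Module ℚ V] (b : V →ₗ[ℚ] V →ₗ[ℚ] ℚ)
    (W : Submodule ℚ V) [FiniteDimensional ℚ W] (hpos : ∀ w ∈ W, b w w = 0 → w = 0)
    (F : Dual ℚ V) :
    ∃ w ∈ W, ∀ w' ∈ W, b w w' = F w' := by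
  let T : W →ₗ[ℚ] Dual ℚ W := b.domRestrict₁₂ W W
  have hT : ∀ x y : W, T x y = b x y := fun _ _ => rfl
  have hinj : Function.Injective T := by
    rw [← LinearMap.ker_eq_bot, LinearMap.ker_eq_bot']
    intro x hx
    apply Subtype.ext
    apply hpos _ x.2
    rw [← hT, hx]
    rfl
  have hsurj : Function.Surjective T :=
    (LinearMap.injective_iff_surjective_of_finrank_eq_finrank
      (Subspace.dual_finrank_eq).symm).1 hinj
  obtain ⟨w, hw⟩ := hsurj (F.comp W.subtype)
  exact ⟨w, w.2, fun w' hw' => congrArg (fun f : Dual ℚ W => f ⟨w', hw'⟩) hw⟩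

/-- orthogonal projection for a form which is anisotropic on a finite dimensional subspace -/
theorem exists_proj {V : Type*} [AddCommGroup V] [Module ℚ V] (b : V →ₗ[ℚ] V →ₗ[ℚ] ℚ)
    (W : Submodule ℚ V) [FiniteDimensional ℚ W] (hpos : ∀ w ∈ W, b w w = 0 → w = 0) (v : V) :
    ∃ w ∈ W, ∀ w' ∈ W, b w w' = b v w' :=
  exists_rep b W hpos (b v)

/-- the diagonal form with given weights -/
noncomputable def diagForm {n : ℕ} (a : Fin n → ℚ) :
    (Fin n → ℚ) →ₗ[ℚ] (Fin n → ℚ) →ₗ[ℚ] ℚ :=
  LinearMap.mk₂ ℚ (fun x y => ∑ i, a i * x i * y i)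
    (fun x x' y => by simp [mul_add, add_mul, Finset.sum_add_distrib])
    (fun c x y => by
      simp only [Pi.smul_apply, smul_eq_mul, Finset.mul_sum]
      exact Finset.sum_congr rfl fun i _ => by ring)
    (fun x y y' => by simp [mul_add, Finset.sum_add_distrib])
    (fun c x y => by
      simp only [Pi.smul_apply, smul_eq_mul, Finset.mul_sum]
      exact Finset.sum_congr rfl fun i _ => by ring)

lemma diagForm_apply {n : ℕ} (a : Fin n → ℚ) (x y : Fin n → ℚ) :
    diagForm a x y = ∑ i, a i * x i * y i := rfl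

lemma diagForm_symm {n : ℕ} (a : Fin n → ℚ) (x y : Fin n → ℚ) :
    diagForm a x y = diagForm a y x := by
  rw [diagForm_apply, diagForm_apply]
  exact Finset.sum_congr rfl fun i _ => by ring

lemma diagForm_self {n : ℕ} {a : Fin n → ℚ} (ha : ∀ i, 0 < a i) {x : Fin n → ℚ}
    (h : diagForm a x x = 0) : x = 0 := by
  rw [diagForm_apply, Finset.sum_eq_zero_iff_of_nonneg] at h
  · ext i
    have h1 := h i (Finset.mem_univ i)
    have h2 : a i * (x i * x i) = 0 := by rw [← mul_assoc]; exact h1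
    rcases mul_eq_zero.1 h2 with h3 | h3
    · exact absurd h3 (ha i).ne'
    · exact mul_self_eq_zero.1 h3
  · intro i _
    rw [mul_assoc]
    exact mul_nonneg (ha i).le (mul_self_nonneg _)

variable {B : Components} {D : Divisors B} {I : Intersections D}

/-- The main point for the algebraic part. -/
theorem HodgeIndex.main (hI : HodgeIndex I) (x : D.N1) (hx : ∀ x', I.form2 (D.res x) (D.res x') = 0) :
    ∃ z : Fin B.n3 → ℚ, B.d3.mulVec z = 0 ∧ D.res x = D.gysC z := by
  set P := diagForm B.degS with hP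
  set Q := diagForm B.degC with hQ
  have hform2 : ∀ h h', I.form2 (D.pol2 h) (D.pol2 h') = P h h' := fun h h' => I.form2_pol2 h h'
  -- decomposition of `res x`
  obtain ⟨p, hp, hpx⟩ := exists_proj I.form2 (LinearMap.range D.pol2) (by
    rintro _ ⟨h, rfl⟩ h0
    rw [hform2] at h0
    rw [diagForm_self B.degS_pos h0, map_zero]) (D.res x)
  obtain ⟨h, rfl⟩ := hp
  have hh : ∀ h', P h h' = I.form2 (D.res x) (D.pol2 h') := by
    intro h'
    rw [← hform2]
    exact hpx _ ⟨h', rfl⟩
  -- `h` is orthogonal to the image of `d1`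
  have hd1 : ∀ t, P h (B.d1.mulVec t) = 0 := by
    intro t
    rw [hh, ← D.res_pol1]
    exact hx _
  -- projection of `h` to the kernel of `d2`
  obtain ⟨h0, hh0, hproj⟩ := exists_proj P (LinearMap.ker B.d2.mulVecLin) (by
    intro w _ hw
    exact diagForm_self B.degS_pos hw) h
  rw [LinearMap.mem_ker] at hh0
  have hh0' : B.d2.mulVec h0 = 0 := hh0
  -- the image of `d1` is in the kernel of `d2`
  have hd21 : ∀ t, B.d2.mulVec (B.d1.mulVec t) = 0 := by
    intro t
    ext i
    have h1 := D.deg_pol2 (B.d1.mulVec t) i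
    rw [← D.res_pol1, D.deg_res, Pi.zero_apply] at h1
    exact (mul_eq_zero.1 h1.symm).resolve_left (B.degC_pos i).ne'
  have hh01 : ∀ t, P h0 (B.d1.mulVec t) = 0 := fun t => by
    rw [hproj _ (hd21 t), hd1]
  -- the class `gysS h0` is primitive of square zero, so it vanishes
  have hg1 : ∀ t, I.form1 (D.gysS h0) (D.pol1 t) = 0 := by
    intro t
    rw [I.form1_gysS, D.res_pol1, hform2, hh01]
  have hg2 : I.form1 (D.gysS h0) (D.gysS h0) = 0 := by
    have h1 := D.res_gysS h0
    rw [hh0', map_zero, add_zero] at h1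
    rw [I.form1_gysS, h1, map_zero]
  have hg : D.gysS h0 = 0 := by
    by_contra hne
    exact absurd hg2 (hI.hodge1 _ hg1 hne).ne
  have hP0 : P h0 h0 = 0 := by
    have h1 : I.form1 (D.gysS h0) x = 0 := by rw [hg, map_zero, LinearMap.zero_apply]
    rw [I.form1_gysS, I.form2_symm, ← hh] at h1
    rw [hproj _ hh0', h1]
  have hz0 : h0 = 0 := diagForm_self B.degS_pos hP0
  subst hz0
  -- so `P h` vanishes on the kernel of `d2`
  have hker : P h ∈ (LinearMap.ker B.d2.mulVecLin).dualAnnihilator := by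
    rw [Submodule.mem_dualAnnihilator]
    intro w hw
    rw [← hproj w hw, map_zero, LinearMap.zero_apply]
  rw [← LinearMap.range_dualMap_eq_dualAnnihilator_ker] at hker
  obtain ⟨F, hF⟩ := hker
  obtain ⟨z, ⟨h1, hz1⟩, hz⟩ := exists_rep Q (LinearMap.range B.d2.mulVecLin) (by
    intro w _ hw
    exact diagForm_self B.degC_pos hw) F
  have hz1' : z = B.d2.mulVec h1 := hz1.symm
  have hQ1 : ∀ h', Q z (B.d2.mulVec h') = P h h' := by
    intro h'
    have h2 := hz (B.d2.mulVec h') ⟨h', rfl⟩
    rw [h2, ← hF]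
    rfl
  have hd3 : B.d3.mulVec z = 0 := by
    rw [hz1', Matrix.mulVec_mulVec, B.d3_d2, Matrix.zero_mulVec]
  refine ⟨z, hd3, ?_⟩
  rw [← sub_eq_zero]
  by_contra hne
  have hprim : ∀ h', I.form2 (D.res x - D.gysC z) (D.pol2 h') = 0 := by
    intro h'
    rw [map_sub, LinearMap.sub_apply, ← hh, ← hQ1, I.form2_gysC, sub_eq_zero, hQ, diagForm_apply,
      dotProduct]
    refine Finset.sum_congr rfl fun i _ => ?_
    rw [D.deg_pol2]
    ring
  refine absurd ?_ (hI.hodge2 _ hprim hne).ne
  have e1 : I.form2 (D.gysC z) (D.res x) = 0 := by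
    rw [I.form2_gysC, D.deg_res, dotProduct_zero]
  have e2 : I.form2 (D.gysC z) (D.gysC z) = 0 := by
    have h2 := D.deg_gysC z
    rw [Components.laplacian] at h2
    have h3 : (fun i => B.degP i * B.d3.mulVec z i) = 0 := by
      ext i
      rw [hd3, Pi.zero_apply, mul_zero]
    rw [h3, Matrix.mulVec_zero, add_zero] at h2
    rw [I.form2_gysC, h2, dotProduct_zero]
  rw [map_sub, map_sub, LinearMap.sub_apply, LinearMap.sub_apply, hx, e1, e2, I.form2_symm, e1]
  ring

end Pool.Agent.TH131.MW
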